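import Pool.Agent.Helper45.LGeo.Defs
import Pool.Agent.Helper53.J.Trunc

/-!
The crossing probability of the truncated L-shaped corridor converges exponentially fast, uniformly: a
path that leaves the square of size `K (L+h)` goes through all the slabs of one of the two legs.
-/

set_option autoImplicit false

namespace H47Perc.LN
open Finset Filter Topology SimpleGraph H47Perc.DS H47Perc.SL
open H47Perc.JN (refl refl_iso leg_slabs)
open Pool.Agent.Helper69.RSW (Up P_restrict P_congr P_mono Dep P P_flip P_compl P_indep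
  P_nonneg P_le_one P_or_le P_map P_true P_add_of_disjoint)

/-- a path leaving the square of size `R` goes far in one of the legs -/
lemma trunc_slabs {L h M : ℤ} (hL : 1 ≤ L) (hh : 1 ≤ h) {K m : ℕ}
    (hm : m = 0 ∨ 6 * m + 4 ≤ K) {ω : Finset (Sym2 (ℤ × ℤ))} (hω : ω ⊆ lE L h M) {z z' : ℤ × ℤ}
    (h1 : z.1 - z.2 = h + 1) (h2 : z'.1 + z'.2 ≤ L) (h3 : z'.1 - z'.2 ≤ 1)
    (h4 : Joined ω z z') (hn : ¬ Joined (ω ∩ lE L h (K * (L + h))) z z') :
    (∀ k < m, sE (L + h) k (ω.map (emb transp))) ∨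
      (∀ k < m, sE (L + h) k (ω.map (emb refl))) := by
  classical
  rcases Nat.eq_zero_or_pos K with rfl | hK
  · left
    intro k hk
    omega
  have hK1 : (1 : ℤ) * (L + h) ≤ K * (L + h) :=
    mul_le_mul_of_nonneg_right (by omega) (by omega)
  set R : ℤ := K * (L + h) with hR
  have hR0 : 0 ≤ R := mul_nonneg (by positivity) (by omega)
  have hωS : ω ⊆ edgesIn (dom L h M) := hω
  by_contra hcon
  rw [not_or] at hcon
  obtain ⟨hcB, hcC⟩ := hcon
  -- the lower leg
  have hB : ∀ v, Joined ω z v → -R ≤ v.1 - v.2 := by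
    intro v hv
    by_contra hvR
    apply hcB
    have hvz : Joined ω v z := joined_symm hv
    have hne : v ≠ z := by
      rintro rfl
      omega
    have hvS : v ∈ dom L h M := mem_of_joined_ne hωS hvz hne
    set T := (dom L h M).filter (fun y => y.1 - y.2 < 1) with hT
    have hvT : v ∈ T := by
      rw [hT, mem_filter]
      exact ⟨hvS, by omega⟩
    obtain ⟨w, w', w1, w2, w3, w4, w5, w6⟩ := joined_exit (T := T) hωS hvz hvT
      (by rw [hT, mem_filter]; omega)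
    have hTs : T ⊆ dstrip (L + h) M := by
      intro y hy
      rw [hT, mem_filter, mem_dom] at hy
      rw [mem_dstrip]
      obtain ⟨⟨⟨y1, y2, y3⟩, y4, y5⟩, y6⟩ := hy
      refine ⟨y1, ?_, y5⟩
      by_contra hcon
      exact y3 ⟨by omega, y6⟩
    have hw' : 1 ≤ w'.1 - w'.2 := by
      by_contra hcon
      exact w2 (by rw [hT, mem_filter]; exact ⟨w3, by omega⟩)
    have hwT := mem_dstrip.1 (hTs w1)
    have hvT' := mem_dstrip.1 (hTs hvT)
    have hw1 := (mem_filter.1 w1).2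
    have g1 := adj_level w4
    have htr : (ω ∩ edgesIn T).map (emb transp) ⊆ edgesIn (dstrip (L + h) M) := by
      have h1 : (dstrip (L + h) M).map transp.toEmbedding = dstrip (L + h) M := by
        ext z
        rw [mem_map_equiv, mem_dstrip, mem_dstrip]
        change (0 ≤ z.2 + z.1 ∧ z.2 + z.1 ≤ L + h ∧ |z.2 - z.1| ≤ M) ↔ _
        rw [abs_sub_comm, add_comm z.2 z.1]
      rw [← h1, edgesIn_map transp_iso]
      exact Finset.map_subset_map.2 (inter_subset_right.trans (edgesIn_mono hTs))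
    refine leg_slabs (by omega) hm htr (Finset.map_subset_map.2 inter_subset_left)
      (joined_transp (joined_symm w6)) ?_ ?_ ?_
    · change w.2 ≤ _
      omega
    · change _ < v.2 - v.1
      omega
    · change 0 ≤ v.2 + v.1
      omega
  -- the right leg
  have hC : ∀ v, Joined ω z v → v.1 + v.2 ≤ R := by
    intro v hv
    by_contra hvR
    apply hcC
    have hvz : Joined ω v z' := joined_trans (joined_symm hv) h4
    have hne : v ≠ z' := by
      rintro rfl
      omega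
    have hvS : v ∈ dom L h M := mem_of_joined_ne hωS hvz hne
    set T := (dom L h M).filter (fun y => L < y.1 + y.2) with hT
    have hvT : v ∈ T := by
      rw [hT, mem_filter]
      exact ⟨hvS, by omega⟩
    obtain ⟨w, w', w1, w2, w3, w4, w5, w6⟩ := joined_exit (T := T) hωS hvz hvT
      (by rw [hT, mem_filter]; omega)
    have hT' : ∀ y ∈ T, L < y.1 + y.2 ∧ 1 ≤ y.1 - y.2 ∧ y.1 - y.2 ≤ h + 1 ∧ y.1 + y.2 ≤ M := by
      intro y hy
      rw [hT, mem_filter, mem_dom] at hy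
      obtain ⟨⟨⟨y1, y2, y3⟩, y4, y5⟩, y6⟩ := hy
      refine ⟨y6, ?_, y2, y4⟩
      by_contra hcon
      exact y3 ⟨y6, by omega⟩
    have hTs : T ⊆ (dstrip (L + h) (M + 1)).map refl.toEmbedding := by
      intro y hy
      have hy' := hT' y hy
      rw [mem_map_equiv, mem_dstrip]
      change 0 ≤ y.1 + (-1 - y.2) ∧ y.1 + (-1 - y.2) ≤ L + h ∧ |y.1 - (-1 - y.2)| ≤ M + 1
      rw [abs_le]
      omega
    have hw' : w'.1 + w'.2 ≤ L := by
      by_contra hcon
      exact w2 (by rw [hT, mem_filter]; exact ⟨w3, by omega⟩)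
    have hwT := hT' w w1
    have hvT' := hT' v hvT
    have g1 := adj_sum w4
    have htr : (ω ∩ edgesIn T).map (emb refl) ⊆ edgesIn (dstrip (L + h) (M + 1)) := by
      have h1 : ((dstrip (L + h) (M + 1)).map refl.toEmbedding).map refl.toEmbedding =
          dstrip (L + h) (M + 1) := by
        ext z
        rw [mem_map_equiv, mem_map_equiv]
        have : refl.symm (refl.symm z) = z := by
          change (z.1, -1 - (-1 - z.2)) = z
          ext <;> simp
        rw [this]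
      rw [← h1, edgesIn_map refl_iso]
      exact Finset.map_subset_map.2 (inter_subset_right.trans (edgesIn_mono hTs))
    refine leg_slabs (by omega) hm htr (Finset.map_subset_map.2 inter_subset_left)
      (joined_map.2 (joined_symm w6) : Joined _ (refl w) (refl v)) ?_ ?_ ?_
    · change w.1 ≤ _
      omega
    · change _ < v.1 - (-1 - v.2)
      omega
    · change 0 ≤ v.1 + (-1 - v.2)
      omega
  apply hn
  refine (joined_closed (C := fun v => Joined ω z v ∧ Joined (ω ∩ lE L h R) z v) ?_ h4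
    ⟨joined_refl _ _, joined_refl _ _⟩).2
  rintro a b hab ⟨ha1, ha2⟩
  have hb1 : Joined ω z b := joined_trans ha1 (joined_edge hab)
  refine ⟨hb1, joined_trans ha2 (joined_edge ?_)⟩
  rw [mem_inter]
  refine ⟨hab, ?_⟩
  have hab' := hω hab
  unfold lE at hab' ⊢
  rw [mem_edgesIn, mem_dom, mem_dom] at hab' ⊢
  have ka := hab'.1.1.2.1
  have kb := hab'.2.1.1.2.1
  exact ⟨⟨hab'.1.1, hC a ha1, abs_le.2 ⟨hB a ha1, by omega⟩⟩,
    ⟨hab'.2.1.1, hC b hb1, abs_le.2 ⟨hB b hb1, by omega⟩⟩, hab'.2.2⟩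

lemma trunc_slabs_crL {L h M : ℤ} (hL : 1 ≤ L) (hh : 1 ≤ h) {K m : ℕ}
    (hm : m = 0 ∨ 6 * m + 4 ≤ K) {ω : Finset (Sym2 (ℤ × ℤ))} (hω : ω ⊆ lE L h M)
    (hc : CrL L h ω) (hn : ¬ CrL L h (ω ∩ lE L h (K * (L + h)))) :
    (∀ k < m, sE (L + h) k (ω.map (emb transp))) ∨
      (∀ k < m, sE (L + h) k (ω.map (emb refl))) := by
  obtain ⟨z, z', h1, h2, h3⟩ := hc
  obtain ⟨h2a, h2b⟩ := h2
  refine trunc_slabs hL hh hm hω h1 h2a.le h2b h3 fun hj => hn ?_
  exact ⟨z, z', h1, ⟨h2a, h2b⟩, hj⟩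

lemma trunc_slabs_crX {m' k' : ℕ} {M : ℤ} {K m : ℕ}
    (hm : m = 0 ∨ 6 * m + 4 ≤ K) {ω : Finset (Sym2 (ℤ × ℤ))}
    (hω : ω ⊆ lE (2 * m' + 1) (2 * k' + 1) M) (hc : CrX m' k' ω)
    (hn : ¬ CrX m' k' (ω ∩ lE (2 * m' + 1) (2 * k' + 1) (K * ((2 * m' + 1) + (2 * k' + 1))))) :
    (∀ k < m, sE ((2 * m' + 1) + (2 * k' + 1)) k (ω.map (emb transp))) ∨
      (∀ k < m, sE ((2 * m' + 1) + (2 * k' + 1)) k (ω.map (emb refl))) := by
  classical
  rcases Nat.eq_zero_or_pos K with rfl | hK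
  · left
    intro k hk
    omega
  obtain ⟨z, z', h1, h2, h3⟩ := hc
  have h3' : z'.1 + z'.2 ≤ 2 * (m' : ℤ) + 1 ∧ z'.1 - z'.2 ≤ 1 := by
    rcases h3 with h3 | ⟨rfl, _⟩
    · omega
    · simp only
      omega
  have key := trunc_slabs (L := 2 * m' + 1) (h := 2 * k' + 1) (M := M) (by omega) (by omega) hm
    (ω := ω.erase (e0 m')) ((erase_subset _ _).trans hω) (z := z) (z' := z') (by omega) h3'.1 h3'.2 h2
    (fun hj => hn ?_)
  · rcases key with h | h
    · left
      intro k hk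
      exact sE_up _ _ _ _ (Finset.map_subset_map.2 (erase_subset _ _)) (h k hk)
    · right
      intro k hk
      exact sE_up _ _ _ _ (Finset.map_subset_map.2 (erase_subset _ _)) (h k hk)
  · refine ⟨z, z', h1, ?_, ?_⟩
    · rw [← erase_inter]
      exact hj
    · rcases h3 with h3 | ⟨h3, h5⟩
      · exact Or.inl h3
      · refine Or.inr ⟨h3, mem_inter.2 ⟨h5, ?_⟩⟩
        have h6 := hω h5
        have hK1 : (1 : ℤ) * ((2 * m' + 1) + (2 * k' + 1)) ≤ K * ((2 * m' + 1) + (2 * k' + 1)) :=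
          mul_le_mul_of_nonneg_right (by omega) (by omega)
        unfold lE e0 at h6 ⊢
        rw [mem_edgesIn, mem_dom, mem_dom] at h6 ⊢
        simp only [abs_le] at h6 ⊢
        exact ⟨⟨h6.1.1, by omega, by omega⟩, ⟨h6.2.1.1, by omega, by omega⟩, h6.2.2⟩

/-- the probability that one of the legs is crossed -/
lemma legs_le : ∃ c : ℝ, 0 < c ∧ ∃ C : ℝ, 0 < C ∧ ∀ L : ℤ, 1 ≤ L → ∀ (K : ℕ)
    (F : Finset (Sym2 (ℤ × ℤ))),
      P F (fun ω => (∀ k < (K - 4) / 6, sE L k (ω.map (emb transp))) ∨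
        (∀ k < (K - 4) / 6, sE L k (ω.map (emb refl)))) ≤ C * Real.exp (-(c * K)) := by
  obtain ⟨c, hc, hc1, hP⟩ := P_slabs
  refine ⟨c / 6, by positivity, 2 * Real.exp (3 * c / 2), by positivity, ?_⟩
  intro L hL K F
  set m : ℕ := (K - 4) / 6 with hm
  have e4 : P F (fun ω => ∀ k < m, sE L k (ω.map (emb transp))) ≤ (1 - c) ^ m := by
    rw [← P_map F (emb transp) (fun ω => ∀ k < m, sE L k ω)]
    exact hP L hL m _
  have e4' : P F (fun ω => ∀ k < m, sE L k (ω.map (emb refl))) ≤ (1 - c) ^ m := by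
    rw [← P_map F (emb refl) (fun ω => ∀ k < m, sE L k ω)]
    exact hP L hL m _
  have e5 : (1 - c) ^ m ≤ Real.exp (3 * c / 2) * Real.exp (-(c / 6 * K)) := by
    have h1 : (1 - c) ^ m ≤ (Real.exp (-c)) ^ m :=
      pow_le_pow_left₀ (by linarith) (Real.one_sub_le_exp_neg c) m
    refine h1.trans ?_
    rw [← Real.exp_nat_mul, ← Real.exp_add]
    apply Real.exp_le_exp.2
    have h2 : (K : ℝ) ≤ 6 * m + 9 := by
      have : K ≤ 6 * m + 9 := by omega
      exact_mod_cast this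
    nlinarith
  have e6 := P_or_le F (fun ω => ∀ k < m, sE L k (ω.map (emb transp)))
    (fun ω => ∀ k < m, sE L k (ω.map (emb refl)))
  linarith

/-- truncation of a monotone event -/
lemma trunc_general {F F' : Finset (Sym2 (ℤ × ℤ))} (hsub : F' ⊆ F)
    (A B : Finset (Sym2 (ℤ × ℤ)) → Prop)
    (hAB : ∀ ω ⊆ F, A ω → ¬ A (ω ∩ F') → B ω) : P F A - P F' A ≤ P F B := by
  classical
  have hD : Dep F' (fun ω : Finset (Sym2 (ℤ × ℤ)) => A (ω ∩ F')) := by
    intro S
    simp only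
    rw [inter_assoc, inter_self]
  have e1 : P F' A = P F (fun ω => A (ω ∩ F')) := by
    rw [P_restrict hsub hD]
    apply P_congr
    intro S hS
    rw [inter_eq_left.2 hS]
  have e2 : P F A ≤ P F (fun ω => A (ω ∩ F')) + P F B := by
    refine le_trans ?_ (P_or_le F _ _)
    apply P_mono
    intro ω hω hcr
    by_cases hn : A (ω ∩ F')
    · exact Or.inl hn
    · exact Or.inr (hAB ω hω hcr hn)
  rw [e1]
  linarith

/-- **truncation** -/
theorem pL_trunc : ∃ c : ℝ, 0 < c ∧ ∃ C : ℝ, 0 < C ∧ ∀ L h : ℤ, 1 ≤ L → 1 ≤ h →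
    ∀ (K : ℕ) (M : ℤ), K * (L + h) ≤ M →
      pL L h M - pL L h (K * (L + h)) ≤ C * Real.exp (-(c * K)) := by
  obtain ⟨c, hc, C, hC, H⟩ := legs_le
  refine ⟨c, hc, C, hC, ?_⟩
  intro L h hL hh K M hM
  refine le_trans ?_ (H (L + h) (by omega) K (lE L h M))
  exact trunc_general (lE_mono hM) _ _ fun ω hω h1 h2 =>
    trunc_slabs_crL hL hh (by omega) hω h1 h2

/-- **truncation**, exact event -/
theorem pX_trunc : ∃ c : ℝ, 0 < c ∧ ∃ C : ℝ, 0 < C ∧ ∀ (m k K : ℕ) (M : ℤ),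
    K * ((2 * m + 1) + (2 * k + 1)) ≤ M →
      pX m k M - pX m k (K * ((2 * m + 1) + (2 * k + 1))) ≤ C * Real.exp (-(c * K)) := by
  obtain ⟨c, hc, C, hC, H⟩ := legs_le
  refine ⟨c, hc, C, hC, ?_⟩
  intro m k K M hM
  refine le_trans ?_ (H ((2 * m + 1) + (2 * k + 1)) (by omega) K (lE (2 * m + 1) (2 * k + 1) M))
  exact trunc_general (lE_mono hM) _ _ fun ω hω h1 h2 =>
    trunc_slabs_crX (by omega) hω h1 h2

/-- truncation for all `M`, `K` -/
theorem pL_trunc' : ∃ c : ℝ, 0 < c ∧ ∃ C : ℝ, 0 < C ∧ ∀ L h : ℤ, 1 ≤ L → 1 ≤ h →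
    ∀ (K : ℕ) (M : ℤ), pL L h M ≤ pL L h (K * (L + h)) + C * Real.exp (-(c * K)) := by
  obtain ⟨c, hc, C, hC, H⟩ := pL_trunc
  refine ⟨c, hc, C, hC, ?_⟩
  intro L h hL hh K M
  rcases le_total (K * (L + h)) M with hM | hM
  · have := H L h hL hh K M hM
    linarith
  · have := pL_mono (L := L) (h := h) hM
    have h2 : 0 < C * Real.exp (-(c * K)) := by positivity
    linarith

theorem pX_trunc' : ∃ c : ℝ, 0 < c ∧ ∃ C : ℝ, 0 < C ∧ ∀ (m k K : ℕ) (M : ℤ),
    pX m k M ≤ pX m k (K * ((2 * m + 1) + (2 * k + 1))) + C * Real.exp (-(c * K)) := by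
  obtain ⟨c, hc, C, hC, H⟩ := pX_trunc
  refine ⟨c, hc, C, hC, ?_⟩
  intro m k K M
  rcases le_total ((K : ℤ) * ((2 * m + 1) + (2 * k + 1))) M with hM | hM
  · have := H m k K M hM
    linarith
  · have := pX_mono (m := m) (k := k) hM
    have h2 : 0 < C * Real.exp (-(c * K)) := by positivity
    linarith

end H47Perc.LN
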